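import Pool.Agent.H.MP_2306a6_an.C

set_option autoImplicit false

open Set Filter Topology Metric

namespace Pool.Agent.Results.MP_2306a6_an.Sharp

/-- Euclidean complex n-space -/
abbrev E (n : ℕ) := EuclideanSpace ℂ (Fin n)

/-- initial maps of normalized Loewner chains on the unit ball whose rescaling is normal -/
def InS0 {n : ℕ} (f : E n → E n) : Prop :=
  ∃ F : ℝ → E n → E n, F 0 = f ∧
    (∀ t : ℝ, 0 ≤ t → AnalyticOnNhd ℂ (F t) (ball 0 1) ∧ InjOn (F t) (ball 0 1) ∧ F t 0 = 0 ∧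
      fderiv ℂ (F t) 0 = (Real.exp t : ℂ) • ContinuousLinearMap.id ℂ (E n)) ∧
    (∀ s t : ℝ, 0 ≤ s → s ≤ t → F s '' ball 0 1 ⊆ F t '' ball 0 1) ∧
    ∀ τ : ℕ → ℝ, (∀ k, 0 ≤ τ k) → ∃ φ : ℕ → ℕ, StrictMono φ ∧ ∃ g : E n → E n,
      TendstoLocallyUniformlyOn (fun k z => (Real.exp (-τ (φ k)) : ℂ) • F (τ (φ k)) z) g atTop
        (ball 0 1)

/-- half the second derivative at the origin on the diagonal -/
noncomputable def P2 {n : ℕ} (f : E n → E n) (z : E n) : E n :=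
  (1 / 2 : ℂ) • iteratedFDeriv ℂ 2 f 0 ![z, z]

/-- the norm of the quadratic map -/
noncomputable def normP2 {n : ℕ} (f : E n → E n) : ℝ := sSup ((fun z => ‖P2 f z‖) '' sphere 0 1)

theorem result (n : ℕ) (hn : 2 ≤ n) :
    IsGreatest {x | ∃ f : E n → E n, InS0 f ∧ x = normP2 f} (3 * √3 / 2) ∧
    IsGreatest {x | ∃ f : E n → E n, InS0 f ∧ ∃ z, ‖z‖ = 1 ∧ x = ‖P2 f z‖} (3 * √3 / 2) := by
  have eP : ∀ (f : E n → E n) z, P2 f z = H.MP_2306a6_an.P f z := fun f z => by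
    rw [P2, H.MP_2306a6_an.P]
    congr 2
    ext1 i
    fin_cases i <;> rfl
  have up : ∀ f : E n → E n, InS0 f → ∀ z, ‖z‖ = 1 → ‖P2 f z‖ ≤ 3 * √3 / 2 := by
    rintro _ ⟨F, rfl, h1, h2, h3⟩ z hz
    rw [eP]
    exact H.MP_2306a6_an.upper h1 h2 h3 hz
  let i : Fin 2 → Fin n := Fin.castLE hn
  let p : E n := EuclideanSpace.single (i 0) 1
  let q : E n := EuclideanSpace.single (i 1) 1
  have o : Orthonormal ℂ ![p, q] := by
    convert (EuclideanSpace.orthonormal_single (𝕜 := ℂ) (ι := Fin n)).comp i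
      (Fin.castLE_injective hn) using 1
    ext1 j
    fin_cases j <;> rfl
  have p1 : ‖p‖ = 1 := o.1 0
  have q1 : ‖q‖ = 1 := o.1 1
  let f := H.MP_2306a6_an.sh ((3 * √3 / 2 : ℝ) : ℂ) p q
  have x0 : ∀ t : ℝ, (Real.exp t : ℂ) ≠ 0 := fun t => Complex.ofReal_ne_zero.2 (Real.exp_pos t).ne'
  have s0 : InS0 f := by
    refine ⟨fun t z => (Real.exp t : ℂ) • f z, by ext1; simp, fun t _ =>
      ⟨fun z _ => (analyticAt_const (v := (Real.exp t : ℂ))).smul (H.MP_2306a6_an.sh_an _ p q z),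
        fun x _ y _ e =>
        H.MP_2306a6_an.sh_inj _ (o.2 (show (1 : Fin 2) ≠ 0 by simp))
          (smul_right_injective _ (x0 t) e), by simp [f, H.MP_2306a6_an.sh],
        ((H.MP_2306a6_an.sh_d _ p q).fun_const_smul (Real.exp t : ℂ)).fderiv⟩, ?_, fun τ _ =>
      ⟨id, strictMono_id, f, ?_⟩⟩
    · rintro s t - h _ ⟨z, hz, rfl⟩
      obtain ⟨y, h1, h2⟩ := H.MP_2306a6_an.sh_star o (Real.exp_pos (s - t))
        (Real.exp_le_one_iff.2 (by linarith)) hz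
      refine ⟨y, h1, ?_⟩
      simp only [f, h2, smul_smul, ← Complex.ofReal_mul, ← Real.exp_add, add_sub_cancel]
    · simp only [smul_smul, ← Complex.ofReal_mul, ← Real.exp_add, neg_add_cancel, Real.exp_zero,
        Complex.ofReal_one, one_smul]
      exact fun u hu x _ => ⟨_, self_mem_nhdsWithin, .of_forall fun _ _ _ => refl_mem_uniformity hu⟩
  have e : 3 * √3 / 2 = ‖P2 f q‖ := by
    rw [eP, H.MP_2306a6_an.sh_P, inner_self_eq_norm_sq_to_K, q1, norm_smul, p1]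
    simp [abs_of_nonneg (Real.sqrt_nonneg 3)]
  refine ⟨⟨⟨f, s0, (IsGreatest.csSup_eq (s := (fun z => ‖P2 f z‖) '' sphere 0 1)
    ⟨⟨q, by simpa using q1, e.symm⟩, ?_⟩).symm⟩, ?_⟩,
    ⟨f, s0, q, q1, e⟩, ?_⟩
  · rintro _ ⟨z, hz, rfl⟩
    exact up f s0 z (by simpa using hz)
  · rintro _ ⟨g, hg, rfl⟩
    refine csSup_le ⟨_, q, by simpa using q1, rfl⟩ ?_
    rintro _ ⟨z, hz, rfl⟩
    exact up g hg z (by simpa using hz)
  · rintro _ ⟨g, hg, z, hz, rfl⟩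
    exact up g hg z hz

end Pool.Agent.Results.MP_2306a6_an.Sharp
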